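import Pool.Agent.Work.MP_41f637_al.SI

set_option autoImplicit false

namespace Pool.Agent.Results.MP_41f637_al.SingleInequality

/-- The verbal subgroup of the free group of rank `s` given by the set of laws `W`. -/
abbrev Verb (W : Set (FreeGroup ℕ)) (s : ℕ) : Subgroup (FreeGroup (Fin s)) :=
  Subgroup.normalClosure
    {g : FreeGroup (Fin s) | ∃ u ∈ W, ∃ φ : FreeGroup ℕ →* FreeGroup (Fin s), φ u = g}

/-- `F_s(V)`: the relatively free group of rank `s` of the variety `V` with laws `W`. -/
abbrev RelFree (W : Set (FreeGroup ℕ)) (s : ℕ) : Type := FreeGroup (Fin s) ⧸ Verb W s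

/-- `F_r(V)` discriminates `V` (as in the frozen statement). -/
def Discriminates (W : Set (FreeGroup ℕ)) (r : ℕ) : Prop :=
  ∀ (s : ℕ) (ws : Finset (FreeGroup (Fin s))), (∀ w ∈ ws, w ∉ Verb W s) →
    ∃ f : Fin s → RelFree W r, ∀ w ∈ ws, FreeGroup.lift f w ≠ 1

/-- `F_r(V)` strongly discriminates `V` (as in the frozen statement). -/
def StronglyDiscriminates (W : Set (FreeGroup ℕ)) (r : ℕ) : Prop :=
  ∀ (k : ℕ) (ws : Finset (FreeGroup (Fin r ⊕ Fin k))) (s : ℕ) (hs : r ≤ s),
    (∃ x : Fin k → RelFree W s,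
      ∀ w ∈ ws, FreeGroup.lift
        (Sum.elim
          (fun j : Fin r => (QuotientGroup.mk (FreeGroup.of (Fin.castLE hs j)) : RelFree W s))
          x) w ≠ 1) →
    ∃ y : Fin k → RelFree W r,
      ∀ w ∈ ws, FreeGroup.lift
        (Sum.elim
          (fun j : Fin r => (QuotientGroup.mk (FreeGroup.of j) : RelFree W r))
          y) w ≠ 1

/-- Every single inequality `w(a_1, …, a_r, x_1, …, x_q) ≠ 1` with constants from `F_r(V)` and
`q` unknowns which has a solution in some `F_s(V)` already has a solution in `F_r(V)`. -/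
def SolvesSingle (W : Set (FreeGroup ℕ)) (r q : ℕ) : Prop :=
  ∀ (w : FreeGroup (Fin r ⊕ Fin q)) (s : ℕ) (hs : r ≤ s),
    (∃ x : Fin q → RelFree W s,
      FreeGroup.lift
        (Sum.elim
          (fun j : Fin r => (QuotientGroup.mk (FreeGroup.of (Fin.castLE hs j)) : RelFree W s))
          x) w ≠ 1) →
    ∃ y : Fin q → RelFree W r,
      FreeGroup.lift
        (Sum.elim
          (fun j : Fin r => (QuotientGroup.mk (FreeGroup.of j) : RelFree W r))
          y) w ≠ 1

/-- `F_r(V)` is residually finite. -/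
def ResiduallyFinite (W : Set (FreeGroup ℕ)) (r : ℕ) : Prop :=
  ∀ g : RelFree W r, g ≠ 1 →
    ∃ (Q : Type) (_ : Group Q) (_ : Finite Q) (φ : RelFree W r →* Q), φ g ≠ 1

/-- `V` (laws `W`) is the join of the varieties `V_i` (laws `U i`): the laws of `V` are the words
which are laws of all the `V_i`. -/
def IsJoin (W : Set (FreeGroup ℕ)) {I : Type} (U : I → Set (FreeGroup ℕ)) : Prop :=
  ∀ s : ℕ, Verb W s = ⨅ i, Verb (U i) s

/-- Let the variety `V` be the join of varieties `V_i`, `i ∈ I` (possibly only one, `V` itself) and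
let `q ≤ r`. Suppose that for each `i` the group `F_r(V_i)` is residually finite and either every
single inequality with constants from `F_r(V_i)` and `q` unknowns which is solvable in some
`F_s(V_i)` is solvable in `F_r(V_i)`, or `F_r(V_i)` strongly discriminates `V_i`. If `F_q(V)`
discriminates `V`, then `F_r(V)` strongly discriminates `V`. -/
theorem result (W : Set (FreeGroup ℕ)) {I : Type} (U : I → Set (FreeGroup ℕ)) (hJ : IsJoin W U)
    (q r : ℕ) (hq : q ≤ r) (hres : ∀ i, ResiduallyFinite (U i) r)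
    (hone : ∀ i, SolvesSingle (U i) r q ∨ StronglyDiscriminates (U i) r)
    (hD : Discriminates W q) :
    StronglyDiscriminates W r :=
  Pool.Agent.Work.MP_41f637_al.TP.resFin_single W hq
    (Pool.Agent.Work.MP_41f637_al.TP.resFin_join W U r hJ hres) hD
    (Pool.Agent.Work.MP_41f637_al.TP.single_join W U q r hJ fun i =>
      (hone i).elim id (Pool.Agent.Work.MP_41f637_al.TP.single_of_strongDisc (U i) r q))

end Pool.Agent.Results.MP_41f637_al.SingleInequality
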